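import Pool.Agent.Y677.RSZ.Stm
import Pool.Agent.H305R2.MertensE
import Pool.Agent.H622R3.SP.Good

/-! # Progressions of primes in an interval `(x - H, x)` with many primes

`x ^ ε ≤ H ≤ x`, and `A` a set of primes in `(x - H, x)` with at least `η H / log x` elements.
Szemerédi's theorem relative to sifted sets (`S_ENG`, helper677) gives an arithmetic progression of
length `k` in `A` with difference at most `(log x) ^ B`. -/

set_option autoImplicit false

open Finset Filter Topology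

namespace Pool.Agent.Y57.SAP

open Pool.Agent.Y677.RSZ
open Pool.Agent.TH423.SH (PS)

lemma rt_id {p : ℕ} (hp : p.Prime) : rt (fun n => n) p = 1 := by
  unfold rt
  have : (range p).filter (fun r : ℕ => (p : ℤ) ∣ (r : ℤ)) = {0} := by
    ext r
    simp only [mem_filter, mem_range, mem_singleton]
    constructor
    · rintro ⟨h1, h2⟩
      rw [Int.natCast_dvd_natCast] at h2
      exact Nat.eq_zero_of_dvd_of_lt h2 h1
    · rintro rfl
      exact ⟨hp.pos, by simp⟩
  rw [this, card_singleton]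

lemma sys_id {g : ℕ} (hg : 1 ≤ g) : Sys g (fun n => n) where
  per p _ n := by
    simp
  root p hp := by
    rw [rt_id hp]
    exact ⟨hg, hp.one_lt⟩
  coll := by
    refine ⟨fun h => h, fun h hh => ⟨hg.trans hh, ?_, ?_⟩⟩
    · calc h = h ^ 1 := (pow_one h).symm
        _ ≤ h ^ g := Nat.pow_le_pow_right (lt_of_lt_of_le hg hh) hg
    · intro p _ n h1 h2
      have h3 : (p : ℤ) ∣ (n + h) - n := dvd_sub h2 h1
      rw [add_sub_cancel_left, Int.natCast_dvd_natCast] at h3
      exact h3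

lemma V_bound : ∃ C : ℝ, 0 < C ∧ ∀ᶠ H : ℕ in atTop, V (fun n => n) 1 H ≤ C / Real.log H := by
  have h := Pool.Agent.H305R2.mertens_three
  have hpos : (0 : ℝ) < Real.exp Real.eulerMascheroniConstant := Real.exp_pos _
  have h1 := h.eventually (lt_mem_nhds (half_lt_self hpos))
  refine ⟨2 / Real.exp Real.eulerMascheroniConstant, by positivity, ?_⟩
  filter_upwards [h1, eventually_ge_atTop 3] with H h2 h3
  have hlog : 0 < Real.log H := Real.log_pos (by exact_mod_cast (by omega : 1 < H))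
  have hV : V (fun n => n) 1 H = (∏ p ∈ (Finset.Icc 1 H).filter Nat.Prime, (1 - (p : ℝ)⁻¹)⁻¹)⁻¹ := by
    unfold V
    rw [Finset.prod_inv_distrib, inv_inv]
    have hset : PS 1 H = (Finset.Icc 1 H).filter Nat.Prime := by
      unfold PS
      apply filter_congr
      intro p _
      constructor
      · exact fun h => h.1
      · exact fun h => ⟨h, fun h' => h.one_lt.ne' (Nat.dvd_one.1 h')⟩
    rw [hset]
    apply prod_congr rfl
    intro p hp
    rw [rt_id (mem_filter.1 hp).2]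
    simp
  rw [hV]
  have h4 := (lt_div_iff₀ hlog).1 h2
  rw [div_div, inv_eq_one_div]
  have hp : 0 < Real.exp Real.eulerMascheroniConstant / 2 * Real.log H := by positivity
  calc _ ≤ 1 / (Real.exp Real.eulerMascheroniConstant / 2 * Real.log H) :=
        one_div_le_one_div_of_le hp h4.le
    _ = _ := by field_simp

theorem core (heng : S_ENG) (k : ℕ) (hk : 2 ≤ k) (ε η : ℝ) (hε : 0 < ε) (hη : 0 < η) :
    ∃ (B : ℕ) (x₀ : ℝ), ∀ x H : ℝ, x₀ ≤ x → x ^ ε ≤ H → H ≤ x → ∀ A : Finset ℕ,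
      (∀ p ∈ A, p.Prime ∧ x - H < p ∧ (p : ℝ) < x) → η * H / Real.log x ≤ A.card →
      ∃ a d : ℕ, 1 ≤ d ∧ (d : ℝ) ≤ Real.log x ^ B ∧ ∀ i < k, a + i * d ∈ A := by
  obtain ⟨C, hC, hV⟩ := V_bound
  obtain ⟨N₁, hV⟩ := hV.exists_forall_of_atTop
  set g : ℕ := ⌈2 / ε⌉₊ with hg
  have hg1 : 1 ≤ g := Nat.one_le_ceil_iff.2 (by positivity)
  have hgε : 2 ≤ g * ε := by
    have := Nat.le_ceil (2 / ε)
    rw [div_le_iff₀ hε] at this
    exact this
  set κ : ℝ := η * ε / (4 * C) with hκ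
  have hκ0 : 0 < κ := by positivity
  obtain ⟨B, H₀, hB⟩ := heng k g (1 / 4) κ hk (by norm_num) hκ0
  -- thresholds
  have e1 : ∀ᶠ x : ℝ in atTop, 2 ≤ x ∧ 2 ≤ Real.log x := by
    filter_upwards [eventually_ge_atTop (2 : ℝ), Real.tendsto_log_atTop.eventually_ge_atTop 2]
      with x h1 h2
    exact ⟨h1, h2⟩
  have e2 : ∀ᶠ x : ℝ in atTop, Real.log x ≤ η / 6 * x ^ (3 * ε / 4) := by
    have := isLittleO_log_rpow_atTop (r := 3 * ε / 4) (by positivity)
    have h2 := this.def (c := η / 6) (by positivity)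
    filter_upwards [h2, eventually_ge_atTop (1 : ℝ)] with x h3 h4
    rw [Real.norm_of_nonneg (Real.log_nonneg h4), Real.norm_of_nonneg (by positivity)] at h3
    exact h3
  have e3 : ∀ᶠ x : ℝ in atTop, (max (max N₁ H₀) 2 : ℕ) ≤ x ^ ε :=
    (tendsto_rpow_atTop hε).eventually_ge_atTop _
  obtain ⟨x₀, hx₀⟩ := (e1.and (e2.and e3)).exists_forall_of_atTop
  refine ⟨2 * B, x₀, fun x H hx hH1 hH2 A hA hcard => ?_⟩
  obtain ⟨⟨hx2, hlogx⟩, hsm, hbig⟩ := hx₀ x hx
  have hx0 : 0 < x := by linarith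
  have hH0 : 0 < H := lt_of_lt_of_le (Real.rpow_pos_of_pos hx0 _) hH1
  set Y : ℕ := ⌊x - H⌋₊ with hY
  set N : ℕ := ⌈H⌉₊ with hN
  have hNH : H ≤ N := Nat.le_ceil H
  have hNH1 : (N : ℝ) < H + 1 := Nat.ceil_lt_add_one hH0.le
  have hxH : 0 ≤ x - H := by linarith
  have hY1 : (Y : ℝ) ≤ x - H := Nat.floor_le hxH
  have hY2 : x - H < Y + 1 := Nat.lt_floor_add_one _
  have hbigN : max (max N₁ H₀) 2 ≤ N := by
    have : ((max (max N₁ H₀) 2 : ℕ) : ℝ) ≤ N := hbig.trans (hH1.trans hNH)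
    exact_mod_cast this
  have hN₁ : N₁ ≤ N := (le_max_left _ _).trans ((le_max_left _ _).trans hbigN)
  have hH₀ : H₀ ≤ N := (le_max_right _ _).trans ((le_max_left _ _).trans hbigN)
  have hN2 : 2 ≤ N := (le_max_right _ _).trans hbigN
  have hH1' : 1 ≤ H := by
    have h1 : ((2 : ℕ) : ℝ) ≤ x ^ ε := le_trans (by exact_mod_cast le_max_right _ _) hbig
    push_cast at h1
    linarith
  have hN2H : (N : ℝ) ≤ 2 * H := by linarith
  have hNpos : (0 : ℝ) < N := by linarith
  have hlogN : ε * Real.log x ≤ Real.log N := by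
    rw [← Real.log_rpow hx0]
    exact Real.log_le_log (Real.rpow_pos_of_pos hx0 _) (hH1.trans hNH)
  have hlogN0 : 0 < Real.log N := lt_of_lt_of_le (by positivity) hlogN
  -- the elements of `A` without the small primes
  set A' : Finset ℕ := A.filter (fun p : ℕ => (N : ℝ) ^ (1 / 4 : ℝ) < (p : ℝ)) with hA'
  have hsmall : ((A.filter (fun p : ℕ => ¬ (N : ℝ) ^ (1 / 4 : ℝ) < (p : ℝ))).card : ℝ) ≤
      (N : ℝ) ^ (1 / 4 : ℝ) := by
    have h1 : A.filter (fun p : ℕ => ¬ (N : ℝ) ^ (1 / 4 : ℝ) < (p : ℝ)) ⊆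
        Finset.Icc 1 ⌊(N : ℝ) ^ (1 / 4 : ℝ)⌋₊ := by
      intro p hp
      rw [mem_filter, not_lt] at hp
      rw [mem_Icc]
      exact ⟨(hA p hp.1).1.pos, Nat.le_floor hp.2⟩
    have h2 := card_le_card h1
    rw [Nat.card_Icc, Nat.add_sub_cancel] at h2
    calc _ ≤ ((⌊(N : ℝ) ^ (1 / 4 : ℝ)⌋₊ : ℕ) : ℝ) := by exact_mod_cast h2
      _ ≤ _ := Nat.floor_le (by positivity)
  have hsplit : (A'.card : ℝ) + (A.filter (fun p : ℕ => ¬ (N : ℝ) ^ (1 / 4 : ℝ) < (p : ℝ))).card = A.card := by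
    rw [hA']
    exact_mod_cast Finset.card_filter_add_card_filter_not (s := A) (fun p : ℕ => (N : ℝ) ^ (1 / 4 : ℝ) < (p : ℝ))
  have hq : (N : ℝ) ^ (1 / 4 : ℝ) ≤ η / 2 * H / Real.log x := by
    rw [le_div_iff₀ (by linarith)]
    have h1 : (N : ℝ) ^ (1 / 4 : ℝ) ≤ 2 * H ^ (1 / 4 : ℝ) := by
      calc (N : ℝ) ^ (1 / 4 : ℝ) ≤ (2 * H) ^ (1 / 4 : ℝ) :=
            Real.rpow_le_rpow hNpos.le hN2H (by norm_num)
        _ = 2 ^ (1 / 4 : ℝ) * H ^ (1 / 4 : ℝ) := Real.mul_rpow (by norm_num) hH0.le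
        _ ≤ 2 * H ^ (1 / 4 : ℝ) := by
            apply mul_le_mul_of_nonneg_right _ (by positivity)
            calc (2 : ℝ) ^ (1 / 4 : ℝ) ≤ 2 ^ (1 : ℝ) :=
                  Real.rpow_le_rpow_of_exponent_le (by norm_num) (by norm_num)
              _ = 2 := by norm_num
    have h2 : Real.log x ≤ η / 6 * H ^ (3 / 4 : ℝ) := by
      refine hsm.trans ?_
      apply mul_le_mul_of_nonneg_left _ (by positivity)
      calc x ^ (3 * ε / 4) = (x ^ ε) ^ (3 / 4 : ℝ) := by
            rw [← Real.rpow_mul hx0.le]; congr 1; ring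
        _ ≤ H ^ (3 / 4 : ℝ) := Real.rpow_le_rpow (by positivity) hH1 (by norm_num)
    have h3 : H ^ (1 / 4 : ℝ) * H ^ (3 / 4 : ℝ) = H := by
      rw [← Real.rpow_add hH0]; norm_num
    calc (N : ℝ) ^ (1 / 4 : ℝ) * Real.log x
        ≤ (2 * H ^ (1 / 4 : ℝ)) * (η / 6 * H ^ (3 / 4 : ℝ)) := by
          apply mul_le_mul h1 h2 (by linarith) (by positivity)
      _ = η / 3 * (H ^ (1 / 4 : ℝ) * H ^ (3 / 4 : ℝ)) := by ring
      _ = η / 3 * H := by rw [h3]
      _ ≤ η / 2 * H := by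
          apply mul_le_mul_of_nonneg_right _ hH0.le
          linarith
  have hA'card : κ * (N * V (fun n => n) 1 N) ≤ A'.card := by
    have h1 : V (fun n => n) 1 N ≤ C / (ε * Real.log x) := (hV N hN₁).trans (by
      apply div_le_div_of_nonneg_left hC.le (by positivity) hlogN)
    have h2 : κ * (N * V (fun n => n) 1 N) ≤ κ * (2 * H * (C / (ε * Real.log x))) := by
      apply mul_le_mul_of_nonneg_left _ hκ0.le
      calc (N : ℝ) * V (fun n => n) 1 N ≤ N * (C / (ε * Real.log x)) :=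
            mul_le_mul_of_nonneg_left h1 hNpos.le
        _ ≤ _ := mul_le_mul_of_nonneg_right hN2H (by positivity)
    have h3 : κ * (2 * H * (C / (ε * Real.log x))) = η / 2 * H / Real.log x := by
      rw [hκ]
      have : Real.log x ≠ 0 := by linarith
      field_simp
      ring
    have h4 : η * H / Real.log x = η / 2 * H / Real.log x + η / 2 * H / Real.log x := by ring
    linarith
  obtain ⟨a, d, hd1, hd2, hmem⟩ := hB (fun n => n) Y N A' (sys_id hg1) hH₀ (by
      intro n hn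
      rw [mem_Ioc] at hn
      refine ⟨by push_cast; omega, ?_⟩
      have h1 : (n : ℝ) ≤ (N : ℝ) ^ g := by
        have h2 : (n : ℝ) ≤ Y + N := by exact_mod_cast hn.2
        have h3 : (n : ℝ) ≤ x ^ (2 : ℝ) := by
          rw [Real.rpow_two]; nlinarith
        refine h3.trans ?_
        calc x ^ (2 : ℝ) ≤ x ^ (ε * g) :=
              Real.rpow_le_rpow_of_exponent_le (by linarith) (by linarith)
          _ = (x ^ ε) ^ g := by rw [Real.rpow_mul hx0.le, Real.rpow_natCast]
          _ ≤ (N : ℝ) ^ g := pow_le_pow_left₀ (by positivity) (hH1.trans hNH) _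
      have h5 : ((n : ℤ)) ≤ (N : ℤ) ^ g := by exact_mod_cast h1
      rw [abs_of_nonneg (by positivity)]
      exact h5) (by
      intro p hp
      obtain ⟨h1, h2, h3⟩ := hA p (mem_filter.1 hp).1
      rw [mem_Ioc]
      constructor
      · have : (Y : ℝ) < p := by linarith
        exact_mod_cast this
      · have : (p : ℝ) < Y + N + 1 := by linarith
        have : p < Y + N + 1 := by exact_mod_cast this
        omega) (by
      intro n hn p hp hple hdvd
      rw [mem_filter] at hn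
      have h1 := (hA n hn.1).1
      rw [Int.natCast_dvd_natCast] at hdvd
      have h2 := (Nat.prime_dvd_prime_iff_eq hp h1).1 hdvd
      rw [h2] at hple
      linarith [hn.2]) hA'card
  refine ⟨a, d, hd1, hd2.trans ?_, fun i hi => (mem_filter.1 (hmem i hi)).1⟩
  have hl : Real.log N ≤ 2 * Real.log x := by
    have h1 : (N : ℝ) ≤ x ^ 2 := by nlinarith
    calc Real.log N ≤ Real.log (x ^ 2) := Real.log_le_log hNpos h1
      _ = 2 * Real.log x := by rw [Real.log_pow]; norm_num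
  calc Real.log N ^ B ≤ (Real.log x ^ 2) ^ B := by
        apply pow_le_pow_left₀ hlogN0.le
        nlinarith
    _ = _ := by rw [← pow_mul]

end Pool.Agent.Y57.SAP
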